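import Mathlib
import Pool.Agent.Helper5.Quintic.Integers

/-!
The integer solutions of `4 x ^ 5 + 4 y ^ 5 + 11 z ^ 5 = 0` are exactly the triples
`(t, -t, 0)`.  In particular there is no solution with all three coordinates nonzero.

The proof is a descent in the ring of integers of the fifth cyclotomic field, for the equation
`X ^ 5 + Y ^ 5 = (unit) * 88 * ((ζ - 1) ^ n * Z) ^ 5`.
-/

theorem Pool.Agent.Results.MP_e25fb9_nt.OnlyTrivialSolutions.result (x y z : ℤ) :
    4 * x ^ 5 + 4 * y ^ 5 + 11 * z ^ 5 = 0 ↔ z = 0 ∧ y = -x := by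
  constructor
  · exact Pool.Agent.Helper5.Quintic.main x y z
  · rintro ⟨rfl, rfl⟩
    ring
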